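import Pool.Agent.Y166.CS.Stm3

/-!
# Project CS (helper166), part 3: CS-NIL, the nilpotency index of the fibre over a root is `k`
-/

set_option autoImplicit false

namespace Pool.Agent.Y651.CS

open Pool.Agent.Y166.CS
open Pool.Agent.Results.MP_c4712b_ag.ManyNodesFamily (Poly3 surf)

/-- the substitution `x_0 = c` -/
noncomputable def sub (c : ℂ) : Poly3 →ₐ[ℂ] Poly3 :=
  MvPolynomial.aeval ![MvPolynomial.C c, MvPolynomial.X 1, MvPolynomial.X 2]

lemma sub_X (c : ℂ) (i : Fin 3) : sub c (MvPolynomial.X i) =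
    (![MvPolynomial.C c, MvPolynomial.X 1, MvPolynomial.X 2] : Fin 3 → Poly3) i := by
  rw [sub, MvPolynomial.aeval_X]

lemma sub_mem (c : ℂ) (g : Poly3) :
    g - sub c g ∈ Ideal.span {(MvPolynomial.X 0 - MvPolynomial.C c : Poly3)} := by
  induction g using MvPolynomial.induction_on with
  | C a =>
    have h : sub c (MvPolynomial.C a) = MvPolynomial.C a := by
      rw [sub, MvPolynomial.aeval_C]
      rfl
    rw [h, sub_self]
    exact Ideal.zero_mem _
  | add p q hp hq =>
    have h : p + q - sub c (p + q) = (p - sub c p) + (q - sub c q) := by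
      rw [map_add]
      ring
    rw [h]
    exact Ideal.add_mem _ hp hq
  | mul_X p i hp =>
    have h : p * MvPolynomial.X i - sub c (p * MvPolynomial.X i) =
        (p - sub c p) * MvPolynomial.X i + sub c p * (MvPolynomial.X i - sub c (MvPolynomial.X i)) := by
      rw [map_mul]
      ring
    rw [h]
    refine Ideal.add_mem _ (Ideal.mul_mem_right _ _ hp) (Ideal.mul_mem_left _ _ ?_)
    rw [sub_X]
    fin_cases i
    · exact Ideal.mem_span_singleton_self _
    · simp
    · simp

lemma sub_aeval (c : ℂ) (f : Polynomial ℂ) (hc : f.eval c = 0) :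
    sub c (Polynomial.aeval (MvPolynomial.X 0 : Poly3) f) = 0 := by
  rw [← Polynomial.aeval_algHom_apply, sub_X]
  show Polynomial.aeval (algebraMap ℂ Poly3 c) f = 0
  rw [Polynomial.aeval_algebraMap_apply, Polynomial.coe_aeval_eq_eval, hc, map_zero]

lemma sub_surf (c : ℂ) (f : Polynomial ℂ) (k : ℕ) (hc : f.eval c = 0) :
    sub c (surf f k) = -MvPolynomial.X 1 ^ k := by
  rw [surf, map_sub, map_mul, sub_aeval c f hc, map_pow, sub_X, sub_X]
  simp

lemma mem_iff (f : Polynomial ℂ) (k : ℕ) (c : ℂ) (hc : f.eval c = 0) (g : Poly3) :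
    g ∈ Ideal.span {MvPolynomial.X 0 - MvPolynomial.C c, surf f k} ↔
      (MvPolynomial.X 1 ^ k : Poly3) ∣ sub c g := by
  have hle : Ideal.span {(MvPolynomial.X 0 - MvPolynomial.C c : Poly3)} ≤
      Ideal.span {MvPolynomial.X 0 - MvPolynomial.C c, surf f k} :=
    Ideal.span_mono (by simp)
  have hs : surf f k ∈ Ideal.span {(MvPolynomial.X 0 - MvPolynomial.C c : Poly3), surf f k} :=
    Ideal.subset_span (by simp)
  have hX : (MvPolynomial.X 1 ^ k : Poly3) ∈
      Ideal.span {MvPolynomial.X 0 - MvPolynomial.C c, surf f k} := by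
    have h1 := sub_mem c (Polynomial.aeval (MvPolynomial.X 0 : Poly3) f)
    rw [sub_aeval c f hc, sub_zero] at h1
    have h2 : (MvPolynomial.X 1 ^ k : Poly3) =
        Polynomial.aeval (MvPolynomial.X 0 : Poly3) f * MvPolynomial.X 2 - surf f k := by
      rw [surf]
      ring
    rw [h2]
    exact Ideal.sub_mem _ (Ideal.mul_mem_right _ _ (hle h1)) hs
  constructor
  · intro hg
    obtain ⟨a, b, rfl⟩ := Ideal.mem_span_pair.1 hg
    refine ⟨-sub c b, ?_⟩
    have h0 : sub c (MvPolynomial.X 0 - MvPolynomial.C c) = 0 := by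
      rw [map_sub, sub_X, sub, MvPolynomial.aeval_C]
      simp [MvPolynomial.algebraMap_eq]
    rw [map_add, map_mul, map_mul, h0, sub_surf c f k hc]
    ring
  · intro hg
    have h1 : g = (g - sub c g) + sub c g := by ring
    rw [h1]
    refine Ideal.add_mem _ (hle (sub_mem c g)) ?_
    obtain ⟨r, hr⟩ := hg
    rw [hr]
    exact Ideal.mul_mem_right _ _ hX

theorem done : S_NIL := by
  intro f k hk c hc
  have hp : Prime (MvPolynomial.X 1 : Poly3) := MvPolynomial.X_prime
  have hX1 : sub c (MvPolynomial.X 1) = MvPolynomial.X 1 := by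
    rw [sub_X]
    rfl
  refine ⟨fun h N hN => ?_, ?_, fun N hN => ?_⟩
  · rw [mem_iff f k c hc, map_pow] at hN ⊢
    exact pow_dvd_pow_of_dvd (hp.dvd_of_dvd_pow ((dvd_pow_self _ (by omega)).trans hN)) k
  · rw [mem_iff f k c hc, map_pow, hX1]
  · rw [mem_iff f k c hc, map_pow, hX1] at hN
    exact (pow_dvd_pow_iff hp.ne_zero hp.not_isUnit).1 hN

end Pool.Agent.Y651.CS
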